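import Pool.Agent.H30.VR.Targets

/-!
# Row DFS of ver_modules: a long path by depth first search
-/

set_option autoImplicit false

namespace Pool.Agent.H84.VR

open Finset Pool.Agent.H48.CE Pool.Agent.H30.VR

variable {V : Type}

/-- adjacent, on different sides -/
def RR (G : SimpleGraph V) (A B : Finset V) (u v : V) : Prop :=
  G.Adj u v ∧ ((u ∈ A ∧ v ∈ B) ∨ (u ∈ B ∧ v ∈ A))

theorem RR.symm {G : SimpleGraph V} {A B : Finset V} {u v : V} (h : RR G A B u v) :
    RR G A B v u :=
  ⟨h.1.symm, h.2.elim (fun h => Or.inr ⟨h.2, h.1⟩) (fun h => Or.inl ⟨h.2, h.1⟩)⟩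

/-- a state of the search -/
structure Sta (G : SimpleGraph V) (A B S : Finset V) (p : List V) (T : Finset V) : Prop where
  nodup : p.Nodup
  chain : p.IsChain (RR G A B)
  cover : ∀ v, (v ∈ A ∨ v ∈ B) ↔ (v ∈ S ∨ v ∈ p ∨ v ∈ T)
  d1 : ∀ v ∈ S, v ∉ p ∧ v ∉ T
  d2 : ∀ v ∈ p, v ∉ T
  sep : ∀ u ∈ S, ∀ v ∈ T, ¬ RR G A B u v

theorem sta_step {G : SimpleGraph V} {A B S T : Finset V} {p : List V}
    (h : Sta G A B S p T) (hT : T.Nonempty) :
    ∃ S' p' T', Sta G A B S' p' T' ∧ T'.card + S.card + 1 = T.card + S'.card := by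
  classical
  cases p with
  | nil =>
    obtain ⟨v, hv⟩ := hT
    refine ⟨S, [v], T.erase v, ⟨List.nodup_singleton v, List.isChain_singleton v, ?_, ?_, ?_, ?_⟩,
      ?_⟩
    · intro x
      rw [h.cover x]
      simp only [List.mem_singleton, List.not_mem_nil, false_or, mem_erase]
      by_cases hx : x = v
      · subst hx
        simp [hv]
      · simp [hx]
    · intro x hx
      have h1 := h.d1 x hx
      refine ⟨?_, fun h2 => h1.2 (mem_erase.1 h2).2⟩
      rw [List.mem_singleton]
      rintro rfl
      exact h1.2 hv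
    · intro x hx
      rw [List.mem_singleton] at hx
      rw [hx]
      exact notMem_erase v T
    · intro u hu x hx
      exact h.sep u hu x (mem_erase.1 hx).2
    · rw [card_erase_of_mem hv]
      have := card_pos.2 ⟨v, hv⟩
      omega
  | cons v q =>
    by_cases hw : ∃ w ∈ T, RR G A B v w
    · obtain ⟨w, hwT, hvw⟩ := hw
      refine ⟨S, w :: v :: q, T.erase w, ⟨?_, ?_, ?_, ?_, ?_, ?_⟩, ?_⟩
      · rw [List.nodup_cons]
        exact ⟨fun h2 => h.d2 w h2 hwT, h.nodup⟩
      · rw [List.isChain_cons_cons]
        exact ⟨hvw.symm, h.chain⟩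
      · intro x
        rw [h.cover x, List.mem_cons (a := x) (b := w), mem_erase]
        by_cases hx : x = w
        · subst hx
          simp [hwT]
        · simp [hx]
      · intro x hx
        have h1 := h.d1 x hx
        refine ⟨?_, fun h2 => h1.2 (mem_erase.1 h2).2⟩
        rw [List.mem_cons]
        rintro (rfl | h3)
        · exact h1.2 hwT
        · exact h1.1 h3
      · intro x hx
        rw [List.mem_cons] at hx
        rcases hx with rfl | hx
        · exact notMem_erase x T
        · exact fun h2 => h.d2 x hx (mem_erase.1 h2).2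
      · intro u hu x hx
        exact h.sep u hu x (mem_erase.1 hx).2
      · rw [card_erase_of_mem hwT]
        have := card_pos.2 ⟨w, hwT⟩
        omega
    · push Not at hw
      have hvS : v ∉ S := fun h2 => (h.d1 v h2).1 List.mem_cons_self
      have hvq : v ∉ q := (List.nodup_cons.1 h.nodup).1
      have hvT : v ∉ T := h.d2 v List.mem_cons_self
      refine ⟨insert v S, q, T, ⟨(List.nodup_cons.1 h.nodup).2, h.chain.tail, ?_, ?_, ?_, ?_⟩, ?_⟩
      · intro x
        rw [h.cover x, mem_insert, List.mem_cons]
        tauto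
      · intro x hx
        rw [mem_insert] at hx
        rcases hx with rfl | hx
        · exact ⟨hvq, hvT⟩
        · have h1 := h.d1 x hx
          exact ⟨fun h2 => h1.1 (List.mem_cons_of_mem _ h2), h1.2⟩
      · intro x hx
        exact h.d2 x (List.mem_cons_of_mem _ hx)
      · intro u hu x hx
        rw [mem_insert] at hu
        rcases hu with rfl | hu
        · exact hw x hx
        · exact h.sep u hu x hx
      · rw [card_insert_of_notMem hvS]
        omega

open Classical in
theorem sta_run {G : SimpleGraph V} {A B : Finset V} {m : ℕ} (hW : (A ∪ B).card = 2 * m) (i : ℕ)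
    (hi : i ≤ 2 * m) : ∃ S p T, Sta G A B S p T ∧ T.card + i = S.card + 2 * m := by
  induction i with
  | zero =>
    refine ⟨∅, [], A ∪ B, ⟨List.nodup_nil, List.isChain_nil, ?_, ?_, ?_, ?_⟩, ?_⟩
    · intro v
      simp
    · intro v hv
      exact absurd hv (notMem_empty v)
    · intro v hv
      exact absurd hv List.not_mem_nil
    · intro v hv
      exact absurd hv (notMem_empty v)
    · rw [hW, card_empty]
      omega
  | succ i ih =>
    obtain ⟨S, p, T, h1, h2⟩ := ih (by omega)
    obtain ⟨S', p', T', h3, h4⟩ := sta_step h1 (card_pos.1 (by omega))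
    exact ⟨S', p', T', h3, by omega⟩

open Classical in
/-- an alternating list has nearly as many elements on both sides -/
theorem alt_count {G : SimpleGraph V} {A B : Finset V} (hAB : ∀ v ∈ A, v ∉ B) :
    ∀ (x : V) (q : List V), (x ∈ A ∨ x ∈ B) → (x :: q).IsChain (RR G A B) →
    (x ∈ A → (x :: q).countP (fun v => decide (v ∈ A)) = (x :: q).countP (fun v => decide (v ∈ B)) ∨
      (x :: q).countP (fun v => decide (v ∈ A)) =
        (x :: q).countP (fun v => decide (v ∈ B)) + 1) ∧
    (x ∈ B → (x :: q).countP (fun v => decide (v ∈ B)) = (x :: q).countP (fun v => decide (v ∈ A)) ∨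
      (x :: q).countP (fun v => decide (v ∈ B)) =
        (x :: q).countP (fun v => decide (v ∈ A)) + 1) ∧
    (x :: q).countP (fun v => decide (v ∈ A)) + (x :: q).countP (fun v => decide (v ∈ B)) =
      (x :: q).length := by
  intro x q
  induction q generalizing x with
  | nil =>
    intro hx _
    have hx2 : ¬ (x ∈ A ∧ x ∈ B) := fun h => hAB x h.1 h.2
    by_cases hA : x ∈ A
    · have hB : x ∉ B := fun h => hx2 ⟨hA, h⟩
      simp [hA, hB]
    · have hB : x ∈ B := hx.resolve_left hA
      simp [hA, hB]
  | cons y q ih =>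
    intro hx hc
    rw [List.isChain_cons_cons] at hc
    have hy : y ∈ A ∨ y ∈ B := hc.1.2.elim (fun h => Or.inr h.2) (fun h => Or.inl h.2)
    obtain ⟨h1, h2, h3⟩ := ih y hy hc.2
    rw [List.countP_cons, List.countP_cons (l := y :: q) (p := fun v => decide (v ∈ B)),
      List.length_cons, ← h3]
    by_cases hA : x ∈ A
    · have hB : x ∉ B := hAB x hA
      have hyB : y ∈ B := hc.1.2.elim (fun h => h.2) (fun h => absurd h.1 hB)
      have h4 := h2 hyB
      simp only [hA, hB, decide_true, decide_false, if_true, Bool.false_eq_true, if_false]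
      refine ⟨fun _ => by omega, fun h => absurd h (by simp), by omega⟩
    · have hB : x ∈ B := hx.resolve_left hA
      have hyA : y ∈ A := hc.1.2.elim (fun h => absurd h.1 hA) (fun h => h.2)
      have h4 := h1 hyA
      simp only [hA, hB, decide_true, decide_false, if_true, Bool.false_eq_true, if_false]
      refine ⟨fun h => absurd h (by simp), fun _ => by omega, by omega⟩

/-- the sides of the elements of an alternating list -/
theorem alt_pos {G : SimpleGraph V} {A B : Finset V} (hAB : ∀ v ∈ A, v ∉ B) {l : List V}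
    (hc : l.IsChain (RR G A B)) (h0 : ∀ x, l.head? = some x → x ∈ A) :
    ∀ (i : ℕ) (hi : i < l.length), (i % 2 = 0 → l[i] ∈ A) ∧ (i % 2 = 1 → l[i] ∈ B) := by
  rw [List.isChain_iff_getElem] at hc
  intro i
  induction i with
  | zero =>
    intro hi
    refine ⟨fun _ => h0 _ ?_, fun h => absurd h (by omega)⟩
    rw [List.head?_eq_getElem?, List.getElem?_eq_getElem hi]
  | succ i ih =>
    intro hi
    obtain ⟨h1, h2⟩ := ih (by omega)
    have h3 := hc i hi
    refine ⟨fun h => ?_, fun h => ?_⟩
    · have h4 := h2 (by omega)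
      exact h3.2.elim (fun h5 => absurd h4 (hAB _ h5.1)) (fun h5 => h5.2)
    · have h4 := h1 (by omega)
      exact h3.2.elim (fun h5 => h5.2) (fun h5 => absurd h5.1 (hAB _ h4))

open Classical in
theorem count_side {A S T : Finset V} {p : List V} (hn : p.Nodup)
    (hc : ∀ v ∈ A, v ∈ S ∨ v ∈ p ∨ v ∈ T) (h1 : ∀ v ∈ S, v ∉ p ∧ v ∉ T) (h2 : ∀ v ∈ p, v ∉ T) :
    A.card = (A.filter (fun v => v ∈ S)).card + p.countP (fun v => decide (v ∈ A)) +
      (A.filter (fun v => v ∈ T)).card := by
  have e1 : p.countP (fun v => decide (v ∈ A)) = (A.filter (fun v => v ∈ p)).card := by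
    rw [List.countP_eq_length_filter, ← List.toFinset_card_of_nodup (hn.filter _)]
    congr 1
    ext v
    rw [List.mem_toFinset, List.mem_filter, mem_filter]
    simp [and_comm]
  rw [e1]
  have e2 : A = A.filter (fun v => v ∈ S) ∪ (A.filter (fun v => v ∈ p) ∪
      A.filter (fun v => v ∈ T)) := by
    ext v
    rw [mem_union, mem_union, mem_filter, mem_filter, mem_filter]
    constructor
    · intro hv
      rcases hc v hv with h | h | h
      · exact Or.inl ⟨hv, h⟩
      · exact Or.inr (Or.inl ⟨hv, h⟩)
      · exact Or.inr (Or.inr ⟨hv, h⟩)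
    · rintro (h | h | h)
      · exact h.1
      · exact h.1
      · exact h.1
  conv_lhs => rw [e2]
  rw [card_union_of_disjoint, card_union_of_disjoint]
  · ring
  · rw [Finset.disjoint_left]
    intro v hv hv'
    rw [mem_filter] at hv hv'
    exact h2 v hv.2 hv'.2
  · rw [Finset.disjoint_left]
    intro v hv hv'
    rw [mem_filter] at hv
    rw [mem_union, mem_filter, mem_filter] at hv'
    rcases hv' with h | h
    · exact (h1 v hv.2).1 h.2
    · exact (h1 v hv.2).2 h.2

open Classical in
theorem card_split {A B S : Finset V} (hAB : ∀ v ∈ A, v ∉ B) (hS : ∀ v ∈ S, v ∈ A ∨ v ∈ B) :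
    S.card = (A.filter (fun v => v ∈ S)).card + (B.filter (fun v => v ∈ S)).card := by
  have e2 : S = A.filter (fun v => v ∈ S) ∪ B.filter (fun v => v ∈ S) := by
    ext v
    rw [mem_union, mem_filter, mem_filter]
    constructor
    · intro hv
      rcases hS v hv with h | h
      · exact Or.inl ⟨h, hv⟩
      · exact Or.inr ⟨h, hv⟩
    · rintro (h | h)
      · exact h.2
      · exact h.2
  conv_lhs => rw [e2]
  rw [card_union_of_disjoint]
  rw [Finset.disjoint_left]
  intro v hv hv'
  rw [mem_filter] at hv hv'
  exact hAB v hv.1 hv'.1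

theorem pf_DFS : T_DFS := by
  classical
  intro V G A B t hAB hcard hm hhole
  have hdisj : Disjoint A B := Finset.disjoint_left.2 hAB
  have hW : (A ∪ B).card = 2 * A.card := by
    rw [card_union_of_disjoint hdisj, hcard]
    ring
  obtain ⟨S, p, T, hst, hST⟩ := sta_run (G := G) hW (2 * A.card) le_rfl
  have hAs := count_side (A := A) hst.nodup (fun v hv => (hst.cover v).1 (Or.inl hv)) hst.d1 hst.d2
  have hBs := count_side (A := B) hst.nodup (fun v hv => (hst.cover v).1 (Or.inr hv)) hst.d1 hst.d2
  have hS := card_split (S := S) hAB (fun v hv => (hst.cover v).2 (Or.inl hv))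
  have hT := card_split (S := T) hAB (fun v hv => (hst.cover v).2 (Or.inr (Or.inr hv)))
  have hside : ∀ v ∈ p, v ∈ A ∨ v ∈ B := fun v hv => (hst.cover v).2 (Or.inr (Or.inl hv))
  -- no holes
  have hh1 : ¬ (t ≤ (A.filter (fun v => v ∈ S)).card ∧ t ≤ (B.filter (fun v => v ∈ T)).card) := by
    rintro ⟨h1, h2⟩
    obtain ⟨a, ha, b, hb, hab⟩ := hhole _ (filter_subset _ _) _ (filter_subset _ _) h1 h2
    rw [mem_filter] at ha hb
    exact hst.sep a ha.2 b hb.2 ⟨hab, Or.inl ⟨ha.1, hb.1⟩⟩
  have hh2 : ¬ (t ≤ (A.filter (fun v => v ∈ T)).card ∧ t ≤ (B.filter (fun v => v ∈ S)).card) := by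
    rintro ⟨h1, h2⟩
    obtain ⟨a, ha, b, hb, hab⟩ := hhole _ (filter_subset _ _) _ (filter_subset _ _) h1 h2
    rw [mem_filter] at ha hb
    exact hst.sep b hb.2 a ha.2 ⟨hab.symm, Or.inr ⟨hb.1, ha.1⟩⟩
  -- the path is not empty
  cases hp : p with
  | nil =>
    rw [hp] at hAs hBs
    simp only [List.countP_nil] at hAs hBs
    omega
  | cons v q =>
    rw [hp] at hAs hBs
    have hchain := hst.chain
    rw [hp] at hchain
    have hnd := hst.nodup
    rw [hp] at hnd
    obtain ⟨c1, c2, c3⟩ := alt_count hAB v q (hside v (by rw [hp]; exact List.mem_cons_self))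
      hchain
    set a := (v :: q).countP (fun v => decide (v ∈ A)) with ha
    set b := (v :: q).countP (fun v => decide (v ∈ B)) with hb
    have hab : a ≤ b + 1 ∧ b ≤ a + 1 := by
      rcases hside v (by rw [hp]; exact List.mem_cons_self) with h | h
      · have := c1 h
        omega
      · have := c2 h
        omega
    have hab2 : a = b := by omega
    have ha1 : A.card ≤ a + 2 * t - 2 ∧ 1 ≤ t := by omega
    -- the list which starts in `A`
    obtain ⟨l, hl1, hl2, hl3, hl4⟩ : ∃ l : List V, l.Nodup ∧ l.IsChain (RR G A B) ∧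
        2 * a ≤ l.length + 1 ∧ ∀ x, l.head? = some x → x ∈ A := by
      by_cases hv : v ∈ A
      · refine ⟨v :: q, hnd, hchain, by omega, ?_⟩
        intro x hx
        rw [List.head?_cons, Option.some.injEq] at hx
        rw [← hx]
        exact hv
      · refine ⟨q, (List.nodup_cons.1 hnd).2, hchain.tail, ?_, ?_⟩
        · rw [List.length_cons] at c3
          omega
        · intro x hx
          cases q with
          | nil => simp at hx
          | cons w q =>
            rw [List.head?_cons, Option.some.injEq] at hx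
            rw [List.isChain_cons_cons] at hchain
            rw [← hx]
            exact hchain.1.2.elim (fun h => absurd h.1 hv) (fun h => h.2)
    have hpos := alt_pos hAB hl2 hl4
    have hlen : 3 ≤ l.length := by omega
    refine ⟨(l.length - 1) / 2, fun i => l.getD i v, by omega, ?_, ?_, ?_, ?_⟩
    · intro i hi
      show l.getD (2 * i) v ∈ A
      rw [List.getD_eq_getElem _ _ (by omega : 2 * i < l.length)]
      exact (hpos _ _).1 (by omega)
    · intro i hi
      show l.getD (2 * i + 1) v ∈ B
      rw [List.getD_eq_getElem _ _ (by omega : 2 * i + 1 < l.length)]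
      exact (hpos _ _).2 (by omega)
    · intro i hi
      show G.Adj (l.getD i v) (l.getD (i + 1) v)
      rw [List.getD_eq_getElem _ _ (by omega : i < l.length),
        List.getD_eq_getElem _ _ (by omega : i + 1 < l.length)]
      rw [List.isChain_iff_getElem] at hl2
      exact (hl2 i (by omega)).1
    · intro i hi j hj hij
      replace hij : l.getD i v = l.getD j v := hij
      rw [List.getD_eq_getElem _ _ (by omega : i < l.length),
        List.getD_eq_getElem _ _ (by omega : j < l.length)] at hij
      exact (List.Nodup.getElem_inj_iff hl1).1 hij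

end Pool.Agent.H84.VR
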