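import Pool.Agent.H30.VR.Targets

/-!
# Row FLX of ver_modules: paths of all even lengths between two typical vertices
-/

set_option autoImplicit false

namespace Pool.Agent.H84.VR

open Finset Pool.Agent.H48.CE Pool.Agent.H30.VR

variable {V : Type}

open Classical in
theorem pickS (S F : Finset V) (n c : ℕ) (hc : (S.filter (fun v => v ∈ F)).card ≤ c)
    (h : n + c ≤ S.card) : ∃ T ⊆ S, T.card = n ∧ ∀ v ∈ T, v ∉ F := by
  have h1 : S.card ≤ (S \ F).card + (S.filter (fun v => v ∈ F)).card := by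
    refine le_trans (card_le_card (fun v hv => ?_)) (card_union_le _ _)
    rw [mem_union, mem_sdiff, mem_filter]
    by_cases hF : v ∈ F
    · exact Or.inr ⟨hv, hF⟩
    · exact Or.inl ⟨hv, hF⟩
  obtain ⟨T, hT, hTc⟩ := Finset.exists_subset_card_eq (by omega : n ≤ (S \ F).card)
  exact ⟨T, fun v hv => (mem_sdiff.1 (hT hv)).1, hTc, fun v hv => (mem_sdiff.1 (hT hv)).2⟩

open Classical in
theorem card_fu (S X Y : Finset V) (a b : ℕ) (hX : (S.filter (fun v => v ∈ X)).card ≤ a)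
    (hY : Y.card ≤ b) : (S.filter (fun v => v ∈ X ∪ Y)).card ≤ a + b := by
  refine le_trans (card_le_card (t := S.filter (fun v => v ∈ X) ∪ Y) (fun v hv => ?_))
    (le_trans (card_union_le _ _) (by omega))
  rw [mem_filter, mem_union] at hv
  rw [mem_union, mem_filter]
  rcases hv.2 with h | h
  · exact Or.inl ⟨hv.1, h⟩
  · exact Or.inr h

/-- almost all vertices of `A1` are reached by paths of length three from `N` -/
theorem reach {G : SimpleGraph V} {A B : Finset V} {d : ℝ} {t : ℕ} (hLR : LR G d t A B)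
    (hd : 0 < d) (ht : 1 ≤ t) {N A1 A2 B2 : Finset V} (hN : N ⊆ B) (hNc : t ≤ N.card)
    (hA1 : A1 ⊆ A) (hA2 : A2 ⊆ A) (hA2c : A2.card = 2 * t) (hB2 : B2 ⊆ B)
    (hB2c : B2.card = 2 * t) :
    ∃ Bad ⊆ A1, Bad.card < t ∧ ∀ u ∈ A1, u ∉ Bad → ∃ b1 ∈ N, ∃ x1 ∈ A2, ∃ b2 ∈ B2,
      G.Adj b1 x1 ∧ G.Adj x1 b2 ∧ G.Adj b2 u := by
  classical
  set P : Finset V := A2.filter (fun x => ∃ b ∈ N, G.Adj b x) with hP
  have h1 : (A2.filter (fun x => ¬ ∃ b ∈ N, G.Adj b x)).card < t := by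
    by_contra hcon
    obtain ⟨x, hx, b, hb, hxb⟩ := hLR.hole hd ht (le_trans (filter_subset _ _) hA2) hN
      (not_lt.1 hcon) hNc
    exact (mem_filter.1 hx).2 ⟨b, hb, hxb.symm⟩
  have hPc : t ≤ P.card := by
    have := Finset.card_filter_add_card_filter_not (s := A2) (fun x => ∃ b ∈ N, G.Adj b x)
    rw [← hP] at this
    omega
  set Q : Finset V := B2.filter (fun b => ∃ x ∈ P, G.Adj x b) with hQ
  have h2 : (B2.filter (fun b => ¬ ∃ x ∈ P, G.Adj x b)).card < t := by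
    by_contra hcon
    obtain ⟨x, hx, b, hb, hxb⟩ := hLR.hole hd ht (le_trans (filter_subset _ _) hA2)
      (le_trans (filter_subset _ _) hB2) hPc (not_lt.1 hcon)
    exact (mem_filter.1 hb).2 ⟨x, hx, hxb⟩
  have hQc : t ≤ Q.card := by
    have := Finset.card_filter_add_card_filter_not (s := B2) (fun b => ∃ x ∈ P, G.Adj x b)
    rw [← hQ] at this
    omega
  refine ⟨A1.filter (fun u => ¬ ∃ b ∈ Q, G.Adj b u), filter_subset _ _, ?_, ?_⟩
  · by_contra hcon
    obtain ⟨u, hu, b, hb, hub⟩ := hLR.hole hd ht (le_trans (filter_subset _ _) hA1)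
      (le_trans (filter_subset _ _) hB2) (not_lt.1 hcon) hQc
    exact (mem_filter.1 hu).2 ⟨b, hb, hub.symm⟩
  · intro u hu hub
    rw [mem_filter, not_and, not_not] at hub
    obtain ⟨b2, hb2, hbu⟩ := hub hu
    obtain ⟨hb3, x1, hx1, hxb⟩ := mem_filter.1 hb2
    obtain ⟨hx2, b1, hb1, hbx⟩ := mem_filter.1 hx1
    exact ⟨b1, hb1, x1, hx2, b2, hb3, hbx, hxb, hbu⟩

theorem exists_good (p : ℕ → V) (h s : ℕ) (hp : ∀ i ≤ 2 * h, ∀ j ≤ 2 * h, p i = p j → i = j)
    (hs : s ≤ h) (B1 B2 : Finset V) (hc : B1.card + B2.card ≤ h - s) :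
    ∃ i, i + s ≤ h ∧ p (2 * i) ∉ B1 ∧ p (2 * i + 2 * s) ∉ B2 := by
  classical
  by_contra hcon
  push Not at hcon
  have h1 : range (h - s + 1) ⊆ (range (h - s + 1)).filter (fun i => p (2 * i) ∈ B1) ∪
      (range (h - s + 1)).filter (fun i => p (2 * i + 2 * s) ∈ B2) := by
    intro i hi
    have hi' := mem_range.1 hi
    rw [mem_union, mem_filter, mem_filter]
    by_cases hb : p (2 * i) ∈ B1
    · exact Or.inl ⟨hi, hb⟩
    · exact Or.inr ⟨hi, hcon i (by omega) hb⟩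
  have h2 := le_trans (card_le_card h1) (card_union_le _ _)
  rw [card_range] at h2
  have h3 : ((range (h - s + 1)).filter (fun i => p (2 * i) ∈ B1)).card ≤ B1.card := by
    refine card_le_card_of_injOn (fun i => p (2 * i)) (fun i hi => ?_) (fun i hi j hj hij => ?_)
    · exact (mem_filter.1 (mem_coe.1 hi)).2
    · have hi' := mem_range.1 (mem_filter.1 (mem_coe.1 hi)).1
      have hj' := mem_range.1 (mem_filter.1 (mem_coe.1 hj)).1
      have := hp (2 * i) (by omega) (2 * j) (by omega) hij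
      omega
  have h4 : ((range (h - s + 1)).filter (fun i => p (2 * i + 2 * s) ∈ B2)).card ≤ B2.card := by
    refine card_le_card_of_injOn (fun i => p (2 * i + 2 * s)) (fun i hi => ?_)
      (fun i hi j hj hij => ?_)
    · exact (mem_filter.1 (mem_coe.1 hi)).2
    · have hi' := mem_range.1 (mem_filter.1 (mem_coe.1 hi)).1
      have hj' := mem_range.1 (mem_filter.1 (mem_coe.1 hj)).1
      have := hp (2 * i + 2 * s) (by omega) (2 * j + 2 * s) (by omega) hij
      omega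
  omega

/-- the middle part of the path -/
def mid (p : ℕ → V) (i s : ℕ) : List V := (List.range (2 * s + 1)).map (fun j => p (2 * i + j))

theorem mid_props {G : SimpleGraph V} (p : ℕ → V) (h i s : ℕ) (his : i + s ≤ h)
    (hp : ∀ i ≤ 2 * h, ∀ j ≤ 2 * h, p i = p j → i = j)
    (hadj : ∀ i < 2 * h, G.Adj (p i) (p (i + 1))) :
    (mid p i s).length = 2 * s + 1 ∧ (mid p i s).Nodup ∧ (mid p i s).IsChain G.Adj ∧
      (mid p i s).head? = some (p (2 * i)) ∧
      (mid p i s).getLast? = some (p (2 * i + 2 * s)) ∧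
      ∀ v ∈ mid p i s, ∃ j ≤ 2 * s, v = p (2 * i + j) := by
  unfold mid
  refine ⟨by simp, ?_, ?_, ?_, ?_, ?_⟩
  · refine List.Nodup.map_on (fun x hx y hy hxy => ?_) List.nodup_range
    have hx' := List.mem_range.1 hx
    have hy' := List.mem_range.1 hy
    have := hp (2 * i + x) (by omega) (2 * i + y) (by omega) hxy
    omega
  · rw [List.isChain_iff_getElem]
    intro j hj
    rw [List.length_map, List.length_range] at hj
    rw [List.getElem_map, List.getElem_map, List.getElem_range, List.getElem_range]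
    exact hadj (2 * i + j) (by omega)
  · rw [List.head?_map, List.head?_range]
    simp
  · rw [List.getLast?_map, List.getLast?_range]
    simp
  · intro v hv
    obtain ⟨j, hj, rfl⟩ := List.mem_map.1 hv
    exact ⟨j, by have := List.mem_range.1 hj; omega, rfl⟩

theorem pf_FLX (hDFS : T_DFS) : T_FLX := by
  classical
  intro V G A B X d t a a' hAB hcard hd ht hLR h20 hd1 hAX hBX ha ha' hne hna hna' s hs
  have hAX' : (A.filter (fun v => v ∈ X)).card ≤ 3 * t := hAX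
  have hBX' : (B.filter (fun v => v ∈ X)).card ≤ 3 * t := hBX
  have h20B : 20 * t ≤ (nb G B a).card := by
    have : ((20 * t : ℕ) : ℝ) ≤ (nb G B a).card := by
      push_cast
      rw [← hcard] at hna
      linarith
    exact_mod_cast this
  have h20B' : 20 * t ≤ (nb G B a').card := by
    have : ((20 * t : ℕ) : ℝ) ≤ (nb G B a').card := by
      push_cast
      rw [← hcard] at hna'
      linarith
    exact_mod_cast this
  have hm : 20 * t ≤ B.card := le_trans h20B (card_le_card (nb_subset B a))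
  -- the sets
  obtain ⟨N1, hN1, hN1c, hN1X⟩ := pickS (nb G B a) X t (3 * t)
    (le_trans (card_le_card (filter_subset_filter _ (nb_subset B a))) hBX') (by omega)
  obtain ⟨N2, hN2, hN2c, hN2X⟩ := pickS (nb G B a') (X ∪ N1) t (3 * t + t)
    (card_fu _ _ _ _ _ (le_trans (card_le_card (filter_subset_filter _ (nb_subset B a'))) hBX')
      hN1c.le) (by omega)
  have haa : ({a, a'} : Finset V).card ≤ 2 := card_le_two
  obtain ⟨A2, hA2, hA2c, hA2X⟩ := pickS A (X ∪ {a, a'}) (2 * t) (3 * t + 2)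
    (card_fu _ _ _ _ _ hAX' haa) (by omega)
  obtain ⟨A3, hA3, hA3c, hA3X⟩ := pickS A (X ∪ {a, a'} ∪ A2) (2 * t) (3 * t + 2 + 2 * t)
    (card_fu _ _ _ _ _ (card_fu _ _ _ _ _ hAX' haa) hA2c.le) (by omega)
  obtain ⟨A1, hA1, hA1c, hA1X⟩ := pickS A (X ∪ {a, a'} ∪ A2 ∪ A3) (B.card - 9 * t)
    (3 * t + 2 + 2 * t + 2 * t)
    (card_fu _ _ _ _ _ (card_fu _ _ _ _ _ (card_fu _ _ _ _ _ hAX' haa) hA2c.le) hA3c.le)
    (by omega)
  obtain ⟨B2, hB2, hB2c, hB2X⟩ := pickS B (X ∪ N1 ∪ N2) (2 * t) (3 * t + t + t)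
    (card_fu _ _ _ _ _ (card_fu _ _ _ _ _ hBX' hN1c.le) hN2c.le) (by omega)
  obtain ⟨B3, hB3, hB3c, hB3X⟩ := pickS B (X ∪ N1 ∪ N2 ∪ B2) (2 * t) (3 * t + t + t + 2 * t)
    (card_fu _ _ _ _ _ (card_fu _ _ _ _ _ (card_fu _ _ _ _ _ hBX' hN1c.le) hN2c.le) hB2c.le)
    (by omega)
  obtain ⟨B1, hB1, hB1c, hB1X⟩ := pickS B (X ∪ N1 ∪ N2 ∪ B2 ∪ B3) (B.card - 9 * t)
    (3 * t + t + t + 2 * t + 2 * t)
    (card_fu _ _ _ _ _ (card_fu _ _ _ _ _ (card_fu _ _ _ _ _ (card_fu _ _ _ _ _ hBX'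
      hN1c.le) hN2c.le) hB2c.le) hB3c.le) (by omega)
  -- the long path
  obtain ⟨h, p, hp1, hp2, hp3, hp4, hp5⟩ := hDFS G A1 B1 t
    (fun v hv hv' => hAB v (hA1 hv) (hB1 hv')) (hA1c.trans hB1c.symm) (by omega)
    (fun A' hA' B' hB' h1 h2 => hLR.hole hd (by omega) (le_trans hA' hA1) (le_trans hB' hB1) h1 h2)
  have hN1B : N1 ⊆ B := le_trans hN1 (nb_subset B a)
  have hN2B : N2 ⊆ B := le_trans hN2 (nb_subset B a')
  obtain ⟨Bd1, _, hBd1, hg1⟩ := reach hLR hd (by omega) hN1B hN1c.ge hA1 hA2 hA2c hB2 hB2c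
  obtain ⟨Bd2, _, hBd2, hg2⟩ := reach hLR hd (by omega) hN2B hN2c.ge hA1 hA3 hA3c hB3 hB3c
  obtain ⟨i, hi, hi1, hi2⟩ := exists_good p h s hp5 (by omega) Bd1 Bd2 (by omega)
  have hu : p (2 * i) ∈ A1 := hp2 i (by omega)
  have hv : p (2 * i + 2 * s) ∈ A1 := by
    have := hp2 (i + s) (by omega)
    rwa [Nat.mul_add] at this
  obtain ⟨b1, hb1, x1, hx1, b2, hb2, e1, e2, e3⟩ := hg1 _ hu hi1
  obtain ⟨b4, hb4, x2, hx2, b3, hb3, f1, f2, f3⟩ := hg2 _ hv hi2
  obtain ⟨m1, m2, m3, m4, m5, m6⟩ := mid_props p h i s hi hp5 hp4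
  -- properties of the vertices
  have hmid : ∀ v ∈ mid p i s, v ∈ A1 ∨ v ∈ B1 := by
    intro v hv
    obtain ⟨j, hj, rfl⟩ := m6 v hv
    rcases Nat.even_or_odd' j with ⟨c, hc | hc⟩
    · left
      have := hp2 (i + c) (by omega)
      rw [hc, ← Nat.mul_add]
      exact this
    · right
      have := hp3 (i + c) (by omega)
      rw [hc, ← Nat.add_assoc, ← Nat.mul_add]
      exact this
  have pN1 : ∀ v ∈ N1, v ∈ B ∧ v ∉ X := fun v hv => ⟨hN1B hv, hN1X v hv⟩
  have pN2 : ∀ v ∈ N2, v ∈ B ∧ v ∉ X ∧ v ∉ N1 := fun v hv => by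
    have := hN2X v hv
    rw [mem_union, not_or] at this
    exact ⟨hN2B hv, this⟩
  have pA2 : ∀ v ∈ A2, v ∈ A ∧ v ∉ X ∧ v ≠ a ∧ v ≠ a' := fun v hv => by
    have := hA2X v hv
    simp only [mem_union, mem_insert, mem_singleton, not_or] at this
    exact ⟨hA2 hv, this.1, this.2.1, this.2.2⟩
  have pA3 : ∀ v ∈ A3, v ∈ A ∧ v ∉ X ∧ v ≠ a ∧ v ≠ a' ∧ v ∉ A2 := fun v hv => by
    have := hA3X v hv
    simp only [mem_union, mem_insert, mem_singleton, not_or] at this
    exact ⟨hA3 hv, this.1.1, this.1.2.1, this.1.2.2, this.2⟩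
  have pA1 : ∀ v ∈ A1, v ∈ A ∧ v ∉ X ∧ v ≠ a ∧ v ≠ a' ∧ v ∉ A2 ∧ v ∉ A3 := fun v hv => by
    have := hA1X v hv
    simp only [mem_union, mem_insert, mem_singleton, not_or] at this
    exact ⟨hA1 hv, this.1.1.1, this.1.1.2.1, this.1.1.2.2, this.1.2, this.2⟩
  have pB2 : ∀ v ∈ B2, v ∈ B ∧ v ∉ X ∧ v ∉ N1 ∧ v ∉ N2 := fun v hv => by
    have := hB2X v hv
    simp only [mem_union, not_or] at this
    exact ⟨hB2 hv, this.1.1, this.1.2, this.2⟩
  have pB3 : ∀ v ∈ B3, v ∈ B ∧ v ∉ X ∧ v ∉ N1 ∧ v ∉ N2 ∧ v ∉ B2 := fun v hv => by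
    have := hB3X v hv
    simp only [mem_union, not_or] at this
    exact ⟨hB3 hv, this.1.1.1, this.1.1.2, this.1.2, this.2⟩
  have pB1 : ∀ v ∈ B1, v ∈ B ∧ v ∉ X ∧ v ∉ N1 ∧ v ∉ N2 ∧ v ∉ B2 ∧ v ∉ B3 := fun v hv => by
    have := hB1X v hv
    simp only [mem_union, not_or] at this
    exact ⟨hB1 hv, this.1.1.1.1, this.1.1.1.2, this.1.1.2, this.1.2, this.2⟩
  -- the vertices of the middle part
  have pM : ∀ v ∈ mid p i s, (v ∈ A ∨ v ∈ B) ∧ v ∉ X ∧ v ≠ a ∧ v ≠ a' ∧ v ≠ b1 ∧ v ≠ x1 ∧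
      v ≠ b2 ∧ v ≠ b3 ∧ v ≠ x2 ∧ v ≠ b4 := by
    intro v hv
    rcases hmid v hv with h1 | h1
    · obtain ⟨q1, q2, q3, q4, q5, q6⟩ := pA1 v h1
      refine ⟨Or.inl q1, q2, q3, q4, ?_, ?_, ?_, ?_, ?_, ?_⟩
      · rintro rfl; exact hAB _ q1 (pN1 _ hb1).1
      · rintro rfl; exact q5 hx1
      · rintro rfl; exact hAB _ q1 (pB2 _ hb2).1
      · rintro rfl; exact hAB _ q1 (pB3 _ hb3).1
      · rintro rfl; exact q6 hx2
      · rintro rfl; exact hAB _ q1 (pN2 _ hb4).1
    · obtain ⟨q1, q2, q3, q4, q5, q6⟩ := pB1 v h1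
      refine ⟨Or.inr q1, q2, ?_, ?_, ?_, ?_, ?_, ?_, ?_, ?_⟩
      · rintro rfl; exact hAB _ ha q1
      · rintro rfl; exact hAB _ ha' q1
      · rintro rfl; exact q3 hb1
      · rintro rfl; exact hAB _ (pA2 _ hx1).1 q1
      · rintro rfl; exact q5 hb2
      · rintro rfl; exact q6 hb3
      · rintro rfl; exact hAB _ (pA3 _ hx2).1 q1
      · rintro rfl; exact q4 hb4
  obtain ⟨r1, r2⟩ := pN1 b1 hb1
  obtain ⟨s1, s2, s3, s4⟩ := pA2 x1 hx1
  obtain ⟨t1, t2, t3, t4⟩ := pB2 b2 hb2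
  obtain ⟨u1, u2, u3, u4, u5⟩ := pB3 b3 hb3
  obtain ⟨v1, v2, v3, v4, v5⟩ := pA3 x2 hx2
  obtain ⟨w1, w2, w3⟩ := pN2 b4 hb4
  have n1 : a ≠ b1 := by rintro rfl; exact hAB _ ha r1
  have n2 : a ≠ b2 := by rintro rfl; exact hAB _ ha t1
  have n3 : a ≠ b3 := by rintro rfl; exact hAB _ ha u1
  have n4 : a ≠ b4 := by rintro rfl; exact hAB _ ha w1
  have n5 : b1 ≠ x1 := by rintro rfl; exact hAB _ s1 r1
  have n6 : b1 ≠ b2 := by rintro rfl; exact t3 hb1
  have n7 : b1 ≠ b3 := by rintro rfl; exact u3 hb1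
  have n8 : b1 ≠ x2 := by rintro rfl; exact hAB _ v1 r1
  have n9 : b1 ≠ b4 := by rintro rfl; exact w3 hb1
  have n10 : b1 ≠ a' := by rintro rfl; exact hAB _ ha' r1
  have n11 : x1 ≠ b2 := by rintro rfl; exact hAB _ s1 t1
  have n12 : x1 ≠ b3 := by rintro rfl; exact hAB _ s1 u1
  have n13 : x1 ≠ x2 := by rintro rfl; exact v5 hx1
  have n14 : x1 ≠ b4 := by rintro rfl; exact hAB _ s1 w1
  have n15 : b2 ≠ b3 := by rintro rfl; exact u5 hb2
  have n16 : b2 ≠ x2 := by rintro rfl; exact hAB _ v1 t1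
  have n17 : b2 ≠ b4 := by rintro rfl; exact t4 hb4
  have n18 : b2 ≠ a' := by rintro rfl; exact hAB _ ha' t1
  have n19 : b3 ≠ x2 := by rintro rfl; exact hAB _ v1 u1
  have n20 : b3 ≠ b4 := by rintro rfl; exact u4 hb4
  have n21 : b3 ≠ a' := by rintro rfl; exact hAB _ ha' u1
  have n22 : x2 ≠ b4 := by rintro rfl; exact hAB _ v1 w1
  have n23 : b4 ≠ a' := by rintro rfl; exact hAB _ ha' w1
  refine ⟨b1 :: x1 :: b2 :: (mid p i s ++ [b3, x2, b4]), ?_, ⟨?_, ?_⟩, ?_⟩
  · simp only [List.length_cons, List.length_append, List.length_nil, m1]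
  · have e : a :: ((b1 :: x1 :: b2 :: (mid p i s ++ [b3, x2, b4])) ++ [a']) =
        [a, b1, x1, b2] ++ (mid p i s ++ [b3, x2, b4, a']) := by simp
    rw [e, List.nodup_append]
    refine ⟨?_, ?_, ?_⟩
    · simp only [List.nodup_cons, List.mem_cons, List.not_mem_nil, or_false, not_or,
        not_false_eq_true, List.nodup_nil, and_true]
      exact ⟨⟨n1, s3.symm, n2⟩, ⟨n5, n6⟩, n11⟩
    · rw [List.nodup_append]
      refine ⟨m2, ?_, ?_⟩
      · simp only [List.nodup_cons, List.mem_cons, List.not_mem_nil, or_false, not_or,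
          not_false_eq_true, List.nodup_nil, and_true]
        exact ⟨⟨n19, n20, n21⟩, ⟨n22, v4⟩, n23⟩
      · intro y hy z hz
        have := pM y hy
        simp only [List.mem_cons, List.not_mem_nil, or_false] at hz
        rcases hz with rfl | rfl | rfl | rfl
        · exact this.2.2.2.2.2.2.2.1
        · exact this.2.2.2.2.2.2.2.2.1
        · exact this.2.2.2.2.2.2.2.2.2
        · exact this.2.2.2.1
    · intro y hy z hz
      rw [List.mem_append] at hz
      simp only [List.mem_cons, List.not_mem_nil, or_false] at hy hz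
      rcases hz with hz | hz
      · have := pM z hz
        rcases hy with rfl | rfl | rfl | rfl
        · exact this.2.2.1.symm
        · exact this.2.2.2.2.1.symm
        · exact this.2.2.2.2.2.1.symm
        · exact this.2.2.2.2.2.2.1.symm
      · rcases hy with rfl | rfl | rfl | rfl
        · rcases hz with rfl | rfl | rfl | rfl
          · exact n3
          · exact v3.symm
          · exact n4
          · exact hne
        · rcases hz with rfl | rfl | rfl | rfl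
          · exact n7
          · exact n8
          · exact n9
          · exact n10
        · rcases hz with rfl | rfl | rfl | rfl
          · exact n12
          · exact n13
          · exact n14
          · exact s4
        · rcases hz with rfl | rfl | rfl | rfl
          · exact n15
          · exact n16
          · exact n17
          · exact n18
  · have e : a :: ((b1 :: x1 :: b2 :: (mid p i s ++ [b3, x2, b4])) ++ [a']) =
        [a, b1, x1, b2] ++ (mid p i s ++ [b3, x2, b4, a']) := by simp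
    have ab1 : G.Adj a b1 := (mem_nb.1 (hN1 hb1)).2
    have ab4 : G.Adj a' b4 := (mem_nb.1 (hN2 hb4)).2
    rw [e, List.isChain_append]
    refine ⟨?_, ?_, ?_⟩
    · simp only [List.isChain_cons_cons, List.isChain_singleton, and_true]
      exact ⟨ab1, e1, e2⟩
    · rw [List.isChain_append]
      refine ⟨m3, ?_, ?_⟩
      · simp only [List.isChain_cons_cons, List.isChain_singleton, and_true]
        exact ⟨f2.symm, f1.symm, ab4.symm⟩
      · intro y hy z hz
        rw [m5] at hy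
        simp only [Option.mem_def, Option.some.injEq, List.head?_cons] at hy hz
        rw [← hy, ← hz]
        exact f3.symm
    · intro y hy z hz
      rw [List.head?_append, m4] at hz
      simp only [Option.mem_def, Option.some_or, Option.some.injEq] at hz
      have hy' : b2 = y := by simpa using hy
      rw [← hy', ← hz]
      exact e3
  · intro v hv
    simp only [List.mem_cons, List.mem_append, List.not_mem_nil, or_false] at hv
    rcases hv with rfl | rfl | rfl | hv | rfl | rfl | rfl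
    · exact ⟨Or.inr r1, r2⟩
    · exact ⟨Or.inl s1, s2⟩
    · exact ⟨Or.inr t1, t2⟩
    · exact ⟨(pM v hv).1, (pM v hv).2.1⟩
    · exact ⟨Or.inr u1, u2⟩
    · exact ⟨Or.inl v1, v2⟩
    · exact ⟨Or.inr w1, w2⟩

end Pool.Agent.H84.VR
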