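import Pool.Agent.H30.VR.Targets

/-!
# Row MWS of ver_modules: multiplicative weights
-/

set_option autoImplicit false

namespace Pool.Agent.H84.VR

open Finset Pool.Agent.H48.CE Pool.Agent.H30.VR

open Classical in
/-- the number of selected pairs which contain `v` -/
noncomputable def cc {V : Type} {T : ℕ} (p : Fin T → Finset V × Finset V) (v : V) : ℕ :=
  (univ.filter (fun j => v ∈ (p j).1 ∨ v ∈ (p j).2)).card

theorem cc_cons {V : Type} {T : ℕ} (q : Finset V × Finset V) (p : Fin T → Finset V × Finset V)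
    (v : V) : cc (Fin.cons q p : Fin (T + 1) → Finset V × Finset V) v =
      (by classical exact if v ∈ q.1 ∨ v ∈ q.2 then 1 else 0) + cc p v := by
  classical
  unfold cc
  rw [card_filter, card_filter, Fin.sum_univ_succ]
  simp only [Fin.cons_zero, Fin.cons_succ]

theorem log_lower {η : ℝ} (hη : 0 ≤ η) : η - η ^ 2 / 2 ≤ Real.log (1 + η) := by
  refine le_trans ?_ (Real.le_log_one_add_of_nonneg hη)
  rw [le_div_iff₀ (by linarith)]
  have : 0 ≤ η ^ 3 := by positivity
  nlinarith

/-- one step of the selection -/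
theorem mw_pick {V : Type} [Fintype V] (F : Set (Finset V × Finset V)) {K : ℝ} (hK : 0 < K)
    (hF : ∀ w : V → ℝ, (∀ v, 0 ≤ w v) → ∑ v, w v ≤ K →
      ∃ p ∈ F, ∑ v ∈ p.1, w v + ∑ v ∈ p.2, w v ≤ p.1.card)
    (y : V → ℝ) (hy : ∀ v, 0 ≤ y v) :
    ∃ p ∈ F, ∑ v ∈ p.1, y v + ∑ v ∈ p.2, y v ≤ p.1.card * ((∑ v, y v) / K) := by
  have hY : 0 ≤ ∑ v, y v := Finset.sum_nonneg (fun v _ => hy v)
  rcases hY.eq_or_lt with h0 | h0
  · obtain ⟨p, hp, _⟩ := hF (fun _ => 0) (fun _ => le_rfl) (by simpa using hK.le)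
    have hz : ∀ v, y v = 0 := fun v =>
      (Finset.sum_eq_zero_iff_of_nonneg (fun v _ => hy v)).1 h0.symm v (mem_univ v)
    refine ⟨p, hp, ?_⟩
    simp [hz]
  · obtain ⟨p, hp, hp2⟩ := hF (fun v => y v * (K / ∑ v, y v))
      (fun v => mul_nonneg (hy v) (by positivity)) (by
        rw [← Finset.sum_mul]
        refine le_of_eq ?_
        field_simp)
    refine ⟨p, hp, ?_⟩
    rw [← Finset.sum_mul, ← Finset.sum_mul, ← add_mul] at hp2
    rw [mul_div_assoc', le_div_iff₀ hK]
    rw [mul_div_assoc', div_le_iff₀ h0] at hp2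
    exact hp2

theorem mw_step {V : Type} [Fintype V] {T : ℕ} (p : Fin T → Finset V × Finset V)
    (q : Finset V × Finset V) {K η : ℝ} (hK : 0 < K) (hη : 0 < η)
    (hq1 : ∀ v ∈ q.1, v ∉ q.2) (hq2 : q.2.card = q.1.card)
    (hq3 : ∑ v ∈ q.1, ((1 + η) ^ cc p v - 1) + ∑ v ∈ q.2, ((1 + η) ^ cc p v - 1) ≤
      q.1.card * ((∑ v, ((1 + η) ^ cc p v - 1)) / K))
    (hinv : ∑ v, ((1 + η) ^ cc p v - 1) + 2 * K ≤
      2 * K * Real.exp (η * (∑ j, ((p j).1.card : ℝ)) / K)) :
    ∑ v, ((1 + η) ^ cc (Fin.cons q p : Fin (T + 1) → Finset V × Finset V) v - 1) + 2 * K ≤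
      2 * K * Real.exp (η * (∑ j, (((Fin.cons q p : Fin (T + 1) → Finset V × Finset V) j).1.card
        : ℝ)) / K) := by
  classical
  set Y : ℝ := ∑ v, ((1 + η) ^ cc p v - 1) with hY
  have hY0 : 0 ≤ Y := Finset.sum_nonneg (fun v _ => by
    have : (1 : ℝ) ≤ (1 + η) ^ cc p v := one_le_pow₀ (by linarith)
    linarith)
  have h1 : ∑ v, ((1 + η) ^ cc (Fin.cons q p : Fin (T + 1) → Finset V × Finset V) v - 1) =
      Y + η * (2 * q.1.card + (∑ v ∈ q.1, ((1 + η) ^ cc p v - 1) +
        ∑ v ∈ q.2, ((1 + η) ^ cc p v - 1))) := by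
    have e1 : ∀ v, ((1 + η) ^ cc (Fin.cons q p : Fin (T + 1) → Finset V × Finset V) v - 1) =
        ((1 + η) ^ cc p v - 1) + η * ((if v ∈ q.1 then (1 + ((1 + η) ^ cc p v - 1)) else 0) +
          (if v ∈ q.2 then (1 + ((1 + η) ^ cc p v - 1)) else 0)) := by
      intro v
      rw [cc_cons]
      by_cases ha : v ∈ q.1
      · have hb : v ∉ q.2 := hq1 v ha
        simp only [ha, hb, true_or, if_true, if_false]
        rw [pow_add, pow_one]
        ring
      · by_cases hb : v ∈ q.2
        · simp only [ha, hb, or_true, if_true, if_false]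
          rw [pow_add, pow_one]
          ring
        · simp only [ha, hb, or_false, if_false]
          rw [zero_add]
          ring
    rw [Finset.sum_congr rfl (fun v _ => e1 v), Finset.sum_add_distrib, ← Finset.mul_sum,
      Finset.sum_add_distrib, Finset.sum_ite_mem, Finset.sum_ite_mem, univ_inter, univ_inter,
      Finset.sum_add_distrib, Finset.sum_add_distrib, Finset.sum_const, Finset.sum_const, hq2]
    simp only [nsmul_eq_mul, mul_one]
    ring
  have h2 : ∑ j, (((Fin.cons q p : Fin (T + 1) → Finset V × Finset V) j).1.card : ℝ) =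
      q.1.card + ∑ j, ((p j).1.card : ℝ) := by
    rw [Fin.sum_univ_succ]
    simp only [Fin.cons_zero, Fin.cons_succ]
  rw [h1, h2]
  have h3 : Y + η * (2 * q.1.card + (∑ v ∈ q.1, ((1 + η) ^ cc p v - 1) +
      ∑ v ∈ q.2, ((1 + η) ^ cc p v - 1))) + 2 * K ≤ (Y + 2 * K) * (1 + η * q.1.card / K) := by
    have e2 : (Y + 2 * K) * (1 + η * q.1.card / K) =
        Y + η * (2 * q.1.card + q.1.card * (Y / K)) + 2 * K := by
      field_simp
      ring
    rw [e2]
    have := mul_le_mul_of_nonneg_left hq3 hη.le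
    linarith
  have h4 : 1 + η * q.1.card / K ≤ Real.exp (η * q.1.card / K) := by
    have := Real.add_one_le_exp (η * q.1.card / K)
    linarith
  have e3 : η * (q.1.card + ∑ j, ((p j).1.card : ℝ)) / K =
      η * (∑ j, ((p j).1.card : ℝ)) / K + η * q.1.card / K := by ring
  rw [e3, Real.exp_add, ← mul_assoc]
  refine le_trans h3 ?_
  exact mul_le_mul hinv h4 (by positivity) (by positivity)

theorem pf_MWS : T_MWS := by
  classical
  intro V _ F K η γ L hK hη hη4 hγ hL hL2 hexp hF1 hF2
  have hL0 : (0 : ℝ) < L := by exact_mod_cast hL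
  have hL1 : (1 : ℝ) ≤ L := by exact_mod_cast hL
  -- the process
  have hproc : ∀ m : ℕ, ∃ (T : ℕ) (p : Fin T → Finset V × Finset V), (∀ j, p j ∈ F) ∧
      (∑ v, ((1 + η) ^ cc p v - 1) + 2 * K ≤
        2 * K * Real.exp (η * (∑ j, ((p j).1.card : ℝ)) / K)) ∧
      (((1 - 2 * η) * L * K ≤ ∑ j, ((p j).1.card : ℝ) ∧
        ∑ j, ((p j).1.card : ℝ) ≤ (1 - η) * L * K) ∨
      (m * (γ * K) ≤ ∑ j, ((p j).1.card : ℝ) ∧
        ∑ j, ((p j).1.card : ℝ) < (1 - 2 * η) * L * K)) := by
    intro m
    induction m with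
    | zero =>
      refine ⟨0, Fin.elim0, fun j => j.elim0, ?_, Or.inr ⟨?_, ?_⟩⟩
      · have e1 : ∀ v : V, cc (Fin.elim0 : Fin 0 → Finset V × Finset V) v = 0 := by
          intro v
          unfold cc
          simp
        simp [e1]
      · simp
      · simp only [univ_eq_empty, sum_empty]
        have : 0 < 1 - 2 * η := by linarith
        positivity
    | succ m ih =>
      obtain ⟨T, p, h1, h2, h3⟩ := ih
      rcases h3 with h3 | ⟨h3, h4⟩
      · exact ⟨T, p, h1, h2, Or.inl h3⟩
      · have hy : ∀ v, 0 ≤ (1 + η) ^ cc p v - 1 := by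
          intro v
          have : (1 : ℝ) ≤ (1 + η) ^ cc p v := one_le_pow₀ (by linarith)
          linarith
        obtain ⟨q, hq, hq2⟩ := mw_pick F hK hF2 (fun v => (1 + η) ^ cc p v - 1) hy
        obtain ⟨g1, g2, g3, g4⟩ := hF1 q hq
        have hS : ∑ j, (((Fin.cons q p : Fin (T + 1) → Finset V × Finset V) j).1.card : ℝ) =
            q.1.card + ∑ j, ((p j).1.card : ℝ) := by
          rw [Fin.sum_univ_succ]
          simp only [Fin.cons_zero, Fin.cons_succ]
        refine ⟨T + 1, Fin.cons q p, ?_, mw_step p q hK hη g1 g2 hq2 h2, ?_⟩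
        · intro j
          refine Fin.cases ?_ (fun i => ?_) j
          · rw [Fin.cons_zero]
            exact hq
          · rw [Fin.cons_succ]
            exact h1 i
        · rw [hS]
          by_cases h5 : (1 - 2 * η) * L * K ≤ q.1.card + ∑ j, ((p j).1.card : ℝ)
          · left
            refine ⟨h5, ?_⟩
            have h6 : η * K ≤ η * L * K := by
              have : η * K * 1 ≤ η * K * L := mul_le_mul_of_nonneg_left hL1 (by positivity)
              linarith
            have e4 : (1 - η) * L * K = (1 - 2 * η) * L * K + η * L * K := by ring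
            rw [e4]
            linarith
          · right
            push_cast
            refine ⟨by linarith, not_le.1 h5⟩
  obtain ⟨m, hm⟩ := exists_nat_gt (L / γ)
  obtain ⟨T, p, h1, h2, h3⟩ := hproc m
  have hfin : (1 - 2 * η) * L * K ≤ ∑ j, ((p j).1.card : ℝ) ∧
        ∑ j, ((p j).1.card : ℝ) ≤ (1 - η) * L * K := by
    rcases h3 with h3 | ⟨h3, h4⟩
    · exact h3
    · exfalso
      rw [div_lt_iff₀ hγ] at hm
      have h5 : L * K < m * (γ * K) := by
        have := mul_lt_mul_of_pos_right hm hK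
        linarith
      have h6 : (1 - 2 * η) * L * K ≤ L * K := by
        have : 0 ≤ 2 * η * L * K := by positivity
        linarith
      linarith
  set S : ℝ := ∑ j, ((p j).1.card : ℝ) with hS
  refine ⟨T, p, h1, ?_, hfin.1, ?_⟩
  · have h5 : (T : ℝ) * (γ * K) ≤ S := by
      have : ∑ _j : Fin T, γ * K ≤ S := Finset.sum_le_sum (fun j _ => (hF1 _ (h1 j)).2.2.1)
      rwa [Finset.sum_const, card_univ, Fintype.card_fin, nsmul_eq_mul] at this
    have h6 : (1 - η) * L * K ≤ L * K := by
      have : 0 ≤ η * L * K := by positivity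
      linarith
    have h7 : (T * γ) * K ≤ L * K := by linarith [hfin.2]
    exact le_of_mul_le_mul_right h7 hK
  · -- the overload
    have hb : (0 : ℝ) < (1 + η) ^ L := by positivity
    have hpt : ∀ v : V, max 0 ((cc p v : ℝ) - L) ≤
        2 / (η * (1 + η) ^ L) * ((1 + η) ^ cc p v - 1) := by
      intro v
      have hy : 0 ≤ (1 + η) ^ cc p v - 1 := by
        have : (1 : ℝ) ≤ (1 + η) ^ cc p v := one_le_pow₀ (by linarith)
        linarith
      rcases le_or_gt (cc p v) L with h | h
      · have : (cc p v : ℝ) ≤ L := by exact_mod_cast h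
        rw [max_eq_left (by linarith)]
        positivity
      · obtain ⟨d, hd⟩ := Nat.exists_eq_add_of_lt h
        have hd' : cc p v = L + (d + 1) := by omega
        rw [hd']
        have hbern := one_add_mul_le_pow (a := η) (by linarith) (d + 1)
        have hLd : (1 + η) ^ (L + (d + 1)) = (1 + η) ^ L * (1 + η) ^ (d + 1) := pow_add _ _ _
        have hge : 2 ≤ (1 + η) ^ (L + (d + 1)) := by
          rw [hLd]
          have : (1 : ℝ) ≤ (1 + η) ^ (d + 1) := one_le_pow₀ (by linarith)
          nlinarith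
        have e5 : ((L + (d + 1) : ℕ) : ℝ) - L = ((d + 1 : ℕ) : ℝ) := by push_cast; ring
        rw [e5, max_eq_right (by positivity)]
        rw [div_mul_eq_mul_div, le_div_iff₀ (by positivity)]
        have h5 : (((d + 1 : ℕ) : ℝ) * η) * (1 + η) ^ L ≤ (1 + η) ^ (d + 1) * (1 + η) ^ L :=
          mul_le_mul_of_nonneg_right (by linarith) hb.le
        have e6 : ((d + 1 : ℕ) : ℝ) * (η * (1 + η) ^ L) =
            (((d + 1 : ℕ) : ℝ) * η) * (1 + η) ^ L := by ring
        rw [e6]
        have e7 : (1 + η) ^ (d + 1) * (1 + η) ^ L = (1 + η) ^ (L + (d + 1)) := by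
          rw [hLd]; ring
        linarith
    have hsum : ∑ v, max 0 ((cc p v : ℝ) - L) ≤
        2 / (η * (1 + η) ^ L) * ∑ v, ((1 + η) ^ cc p v - 1) := by
      rw [Finset.mul_sum]
      exact Finset.sum_le_sum (fun v _ => hpt v)
    have hY : ∑ v, ((1 + η) ^ cc p v - 1) ≤ 2 * K * Real.exp (η * (1 - η) * L) := by
      have h5 : 2 * K * Real.exp (η * S / K) ≤ 2 * K * Real.exp (η * (1 - η) * L) := by
        refine mul_le_mul_of_nonneg_left (Real.exp_le_exp.2 ?_) (by positivity)
        rw [div_le_iff₀ hK]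
        have := mul_le_mul_of_nonneg_left hfin.2 hη.le
        linarith
      linarith
    have hlow : Real.exp ((η - η ^ 2 / 2) * L) ≤ (1 + η) ^ L := by
      have h5 : (1 + η) ^ L = Real.exp (Real.log (1 + η) * L) := by
        rw [← Real.rpow_def_of_pos (by linarith), Real.rpow_natCast]
      rw [h5]
      exact Real.exp_le_exp.2 (mul_le_mul_of_nonneg_right (log_lower hη.le) hL0.le)
    have hfinal : 2 / (η * (1 + η) ^ L) * (2 * K * Real.exp (η * (1 - η) * L)) ≤ η * K := by
      have h6 : Real.exp (η * (1 - η) * L) ≤ η ^ 2 / 4 * (1 + η) ^ L := by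
        have e8 : Real.exp (η * (1 - η) * L) = Real.exp (-(η ^ 2 * L / 2)) *
            Real.exp ((η - η ^ 2 / 2) * L) := by
          rw [← Real.exp_add]
          congr 1
          ring
        rw [e8]
        refine mul_le_mul (by linarith) hlow (Real.exp_pos _).le (by positivity)
      calc 2 / (η * (1 + η) ^ L) * (2 * K * Real.exp (η * (1 - η) * L))
          ≤ 2 / (η * (1 + η) ^ L) * (2 * K * (η ^ 2 / 4 * (1 + η) ^ L)) := by gcongr
        _ = η * K := by
          field_simp
          ring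
    refine le_trans (le_of_eq ?_) (le_trans hsum (le_trans
      (mul_le_mul_of_nonneg_left hY (by positivity)) hfinal))
    rfl

end Pool.Agent.H84.VR
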