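import Pool.Agent.H30.VR.Targets

/-!
# Row WGT of ver_modules: small weights leave many edges of small weight
-/

set_option autoImplicit false

namespace Pool.Agent.H84.VR

open Finset Pool.Agent.H48.CE Pool.Agent.H30.VR

open Classical in
theorem light_many {V : Type} [Fintype V] (G : SimpleGraph V) {ε k : ℝ} (w : V → ℝ)
    (hε : 0 < ε) (hε1 : ε ≤ 1) (hk : 0 < k)
    (hee : (2 + 3 * ε / 2) * k * Fintype.card V ≤ ee G univ univ) (hw : ∀ v, 0 ≤ w v)
    (hs : ∑ v, w v ≤ (1 + ε / 4) * k) :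
    ε / 2 * k * Fintype.card V ≤ ((((univ ×ˢ univ : Finset (V × V)).filter
      (fun p => G.Adj p.1 p.2)).filter (fun p => w p.1 + w p.2 < 1 - ε / 8)).card : ℝ) := by
  set E : Finset (V × V) := (univ ×ˢ univ : Finset (V × V)).filter (fun p => G.Adj p.1 p.2) with hE
  set n : ℝ := (Fintype.card V : ℝ) with hn
  have hn0 : 0 ≤ n := Nat.cast_nonneg _
  have hEc : ((ee G univ univ : ℕ) : ℝ) = (E.card : ℝ) := by
    rw [ee_eq_card]
  have hsplit : (E.card : ℝ) = ((E.filter (fun p => w p.1 + w p.2 < 1 - ε / 8)).card : ℝ) +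
      ((E.filter (fun p => ¬ (w p.1 + w p.2 < 1 - ε / 8))).card : ℝ) := by
    exact_mod_cast (Finset.card_filter_add_card_filter_not (s := E) _).symm
  have hheavy : (1 - ε / 8) * ((E.filter (fun p => ¬ (w p.1 + w p.2 < 1 - ε / 8))).card : ℝ) ≤
      2 * n * ((1 + ε / 4) * k) := by
    have h1 : (1 - ε / 8) * ((E.filter (fun p => ¬ (w p.1 + w p.2 < 1 - ε / 8))).card : ℝ) ≤
        ∑ p ∈ E.filter (fun p => ¬ (w p.1 + w p.2 < 1 - ε / 8)), (w p.1 + w p.2) := by
      rw [mul_comm, ← nsmul_eq_mul, ← Finset.sum_const]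
      exact Finset.sum_le_sum (fun p hp => not_lt.1 (mem_filter.1 hp).2)
    have h2 : ∑ p ∈ E.filter (fun p => ¬ (w p.1 + w p.2 < 1 - ε / 8)), (w p.1 + w p.2) ≤
        ∑ p ∈ (univ ×ˢ univ : Finset (V × V)), (w p.1 + w p.2) := by
      refine Finset.sum_le_sum_of_subset_of_nonneg
        (fun p hp => (mem_filter.1 (mem_filter.1 hp).1).1) (fun p _ _ => ?_)
      have := hw p.1
      have := hw p.2
      linarith
    have h3 : ∑ p ∈ (univ ×ˢ univ : Finset (V × V)), (w p.1 + w p.2) = 2 * n * ∑ v, w v := by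
      rw [Finset.sum_product]
      simp only [Finset.sum_add_distrib, Finset.sum_const, card_univ, nsmul_eq_mul]
      rw [← Finset.mul_sum, hn]
      ring
    have h4 : 2 * n * ∑ v, w v ≤ 2 * n * ((1 + ε / 4) * k) :=
      mul_le_mul_of_nonneg_left hs (by positivity)
    linarith
  have h5 : ((E.filter (fun p => ¬ (w p.1 + w p.2 < 1 - ε / 8))).card : ℝ) ≤
      (2 + ε) * k * n := by
    have h6 : (0 : ℝ) < 1 - ε / 8 := by linarith
    have h7 : 2 * n * ((1 + ε / 4) * k) ≤ (1 - ε / 8) * ((2 + ε) * k * n) := by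
      have h8 : 1 + ε / 4 ≤ (1 - ε / 8) * (1 + ε / 2) := by nlinarith
      have h9 := mul_le_mul_of_nonneg_right h8 (by positivity : 0 ≤ 2 * (k * n))
      linarith
    exact le_of_mul_le_mul_left (le_trans hheavy h7) h6
  rw [hEc, hsplit] at hee
  have e1 : (2 + 3 * ε / 2) * k * n = (2 + ε) * k * n + ε / 2 * k * n := by ring
  linarith

theorem pf_WGT (hHLF : T_HLF) : T_WGT := by
  classical
  intro V _ G ε k w hε hε1 hk hV hee hw hs
  have hlight := light_many G w hε hε1 hk hee hw hs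
  set Lp : Finset (V × V) := ((univ ×ˢ univ : Finset (V × V)).filter
      (fun p => G.Adj p.1 p.2)).filter (fun p => w p.1 + w p.2 < 1 - ε / 8) with hLp
  set n : ℝ := (Fintype.card V : ℝ) with hn
  have hn0 : 0 < n := by rw [hn]; exact_mod_cast hV
  set J : ℕ := ⌈16 / ε⌉₊ with hJ
  have hJ1 : 16 / ε ≤ J := Nat.le_ceil _
  have hJ2 : (J : ℝ) ≤ 17 / ε := by
    have h1 : (J : ℝ) < 16 / ε + 1 := Nat.ceil_lt_add_one (by positivity)
    have h2 : 1 ≤ 1 / ε := by
      rw [le_div_iff₀ hε]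
      linarith
    have h3 : 17 / ε = 16 / ε + 1 / ε := by ring
    linarith
  set cl : V → ℕ := fun v => ⌊16 * w v / ε⌋₊ with hcl
  have hcl1 : ∀ v, (cl v : ℝ) * (ε / 16) ≤ w v := by
    intro v
    have h1 : (cl v : ℝ) ≤ 16 * w v / ε := Nat.floor_le (by
      have := hw v
      positivity)
    rw [le_div_iff₀ hε] at h1
    linarith
  have hcl2 : ∀ v, w v < ((cl v : ℝ) + 1) * (ε / 16) := by
    intro v
    have h1 : 16 * w v / ε < (cl v : ℝ) + 1 := Nat.lt_floor_add_one _
    rw [div_lt_iff₀ hε] at h1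
    linarith
  have hclJ : ∀ v, w v < 1 → cl v < J := by
    intro v hv
    have h1 := hcl1 v
    have h2 : (cl v : ℝ) < J := by
      have h3 : (cl v : ℝ) * ε < 16 := by linarith
      have h4 : (cl v : ℝ) < 16 / ε := by
        rw [lt_div_iff₀ hε]
        exact h3
      linarith
    exact_mod_cast h2
  set b : ℝ := ε ^ 3 / 578 * k * n with hb
  have hb0 : 0 < b := by positivity
  have hpig : ∃ y ∈ (range J ×ˢ range J), b ≤ ((Lp.filter (fun p => (cl p.1, cl p.2) = y)).card
      : ℝ) := by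
    refine Finset.exists_le_card_fiber_of_nsmul_le_card_of_maps_to ?_ ?_ ?_
    · intro p hp
      have hp' := (mem_filter.1 hp).2
      have h1 := hw p.1
      have h2 := hw p.2
      rw [mem_product, mem_range, mem_range]
      exact ⟨hclJ _ (by linarith), hclJ _ (by linarith)⟩
    · have : 0 < J := by
        have h1 : 0 < 16 / ε := by positivity
        have h2 : (0 : ℝ) < J := by linarith
        exact_mod_cast h2
      exact ⟨(0, 0), by rw [mem_product, mem_range]; exact ⟨this, this⟩⟩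
    · rw [card_product, card_range, nsmul_eq_mul]
      push_cast
      have h1 : (J : ℝ) * J ≤ 17 / ε * (17 / ε) :=
        mul_le_mul hJ2 hJ2 (Nat.cast_nonneg _) (by positivity)
      refine le_trans (mul_le_mul_of_nonneg_right h1 hb0.le) (le_trans (le_of_eq ?_) hlight)
      rw [hb]
      field_simp
      ring
  obtain ⟨⟨i, j⟩, _, hij⟩ := hpig
  set Vi : Finset V := univ.filter (fun v => cl v = i) with hVi
  set Vj : Finset V := univ.filter (fun v => cl v = j) with hVj
  have hee2 : b ≤ ee G Vi Vj := by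
    refine le_trans hij ?_
    rw [ee_eq_card]
    refine Nat.cast_le.2 (Finset.card_le_card (fun p hp => ?_))
    obtain ⟨hp1, hp2⟩ := mem_filter.1 hp
    have hp3 := (mem_filter.1 (mem_filter.1 hp1).1).2
    rw [Prod.mk.injEq] at hp2
    rw [mem_filter, mem_product, hVi, hVj, mem_filter, mem_filter]
    exact ⟨⟨⟨mem_univ _, hp2.1⟩, mem_univ _, hp2.2⟩, hp3⟩
  have hsumlt : ∀ x ∈ Vi, ∀ y ∈ Vj, w x + w y < 1 := by
    intro x hx y hy
    have hne : (Lp.filter (fun p => (cl p.1, cl p.2) = (i, j))).Nonempty := by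
      rw [← Finset.card_pos]
      have : (0 : ℝ) < ((Lp.filter (fun p => (cl p.1, cl p.2) = (i, j))).card : ℝ) := by
        linarith
      exact_mod_cast this
    obtain ⟨p, hp⟩ := hne
    obtain ⟨hp1, hp2⟩ := mem_filter.1 hp
    have hp3 := (mem_filter.1 hp1).2
    rw [Prod.mk.injEq] at hp2
    have h1 := hcl1 p.1
    have h2 := hcl1 p.2
    rw [hp2.1] at h1
    rw [hp2.2] at h2
    have h3 := hcl2 x
    have h4 := hcl2 y
    rw [(mem_filter.1 hx).2] at h3
    rw [(mem_filter.1 hy).2] at h4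
    linarith
  by_cases hne : i = j
  · subst hne
    obtain ⟨X, hX, Y, hY, hXY, h4⟩ := hHLF G Vi
    refine ⟨X, Y, hXY, ?_, fun x hx y hy => hsumlt x (hX hx) y (hY hy)⟩
    have h5 : (ee G Vi Vi : ℝ) ≤ 4 * ee G X Y := by exact_mod_cast h4
    have h6 : ε ^ 3 / 2400 * k * n < ε ^ 3 / 2312 * k * n := by
      have : 0 < ε ^ 3 * k * n := by positivity
      linarith
    rw [hb] at hee2
    linarith
  · refine ⟨Vi, Vj, ?_, ?_, hsumlt⟩
    · intro v hv hv'
      rw [hVi, mem_filter] at hv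
      rw [hVj, mem_filter] at hv'
      exact hne (hv.2.symm.trans hv'.2)
    · have h6 : ε ^ 3 / 2400 * k * n < ε ^ 3 / 578 * k * n := by
        have : 0 < ε ^ 3 * k * n := by positivity
        linarith
      rw [hb] at hee2
      linarith

end Pool.Agent.H84.VR
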